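import Mathlib

/-!
Radial limits of the derivative of a univalent function cannot be prescribed: if `f` is univalent
in the unit disc and `f'` has the radial limit `c` almost everywhere on an arc, then `f'` is
constant. Ingredients: a Landau-Bloch covering theorem, a Koebe covering theorem with a constant,
the resulting bound `(1-|z|)|f''| ≤ 4104 |f'|`, and a comparison with Herglotz integrals.
-/

set_option autoImplicit false

open Metric Set Filter Topology Complex MeasureTheory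

namespace Pool.Agent.Results.MP_5011cf_an.Disproof

/-- Landau-Bloch covering theorem with the constant `1/128`. -/
theorem bloch {L : ℂ → ℂ} (hL : DifferentiableOn ℂ L (ball 0 1)) :
    ∃ b : ℂ, ball b (‖deriv L 0‖ / 128) ⊆ L '' ball 0 1 := by
  rcases eq_or_ne (deriv L 0) 0 with h0 | h0
  · exact ⟨0, by simp [h0]⟩
  have hs : 0 < ‖deriv L 0‖ := norm_pos_iff.2 h0
  have hdL : DifferentiableOn ℂ (deriv L) (ball 0 1) := hL.deriv isOpen_ball
  have hsub : closedBall (0 : ℂ) (1 / 2) ⊆ ball 0 1 := closedBall_subset_ball (by norm_num)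
  have hcont : ContinuousOn (fun z => (1 / 2 - ‖z‖) * ‖deriv L z‖) (closedBall (0 : ℂ) (1 / 2)) := by
    refine ContinuousOn.mul (by fun_prop) ?_
    exact (hdL.continuousOn.mono hsub).norm
  obtain ⟨z0, hz0, hmax⟩ := (isCompact_closedBall (0 : ℂ) (1 / 2)).exists_isMaxOn
    ⟨0, by simp⟩ hcont
  have hmax' : ∀ z ∈ closedBall (0 : ℂ) (1 / 2),
      (1 / 2 - ‖z‖) * ‖deriv L z‖ ≤ (1 / 2 - ‖z0‖) * ‖deriv L z0‖ := fun z hz => hmax hz
  have hm := hmax' 0 (by simp)
  rw [norm_zero, sub_zero] at hm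
  have hz0' : ‖z0‖ ≤ 1 / 2 := by simpa using hz0
  have ha : 0 < ‖deriv L z0‖ := by
    by_contra hc
    have : ‖deriv L z0‖ = 0 := le_antisymm (not_lt.1 hc) (norm_nonneg _)
    rw [this, mul_zero] at hm
    linarith
  have hρ' : 0 < 1 / 2 - ‖z0‖ := by
    by_contra hc
    have h1 : (1 / 2 - ‖z0‖) * ‖deriv L z0‖ ≤ 0 :=
      mul_nonpos_of_nonpos_of_nonneg (not_lt.1 hc) ha.le
    linarith
  set a := ‖deriv L z0‖ with ha_def
  obtain ⟨ρ, hρdef⟩ : ∃ ρ, ρ = (1 / 2 - ‖z0‖) / 2 := ⟨_, rfl⟩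
  have hρ : 0 < ρ := by rw [hρdef]; linarith
  have hsub2 : ball z0 ρ ⊆ closedBall (0 : ℂ) (1 / 2) := by
    intro z hz
    rw [mem_ball, dist_eq_norm] at hz
    rw [mem_closedBall, dist_zero_right]
    have h1 : ‖z‖ ≤ ‖z - z0‖ + ‖z0‖ := by
      have := norm_add_le (z - z0) z0
      simpa using this
    linarith
  have hbd : ∀ z ∈ ball z0 ρ, ‖deriv L z‖ ≤ 2 * a := by
    intro z hz
    have h1 := hmax' z (hsub2 hz)
    rw [mem_ball, dist_eq_norm] at hz
    have h2 : ‖z‖ ≤ ‖z - z0‖ + ‖z0‖ := by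
      have := norm_add_le (z - z0) z0
      simpa using this
    have h3 : ρ ≤ 1 / 2 - ‖z‖ := by linarith
    have h4 : ρ * ‖deriv L z‖ ≤ (1 / 2 - ‖z‖) * ‖deriv L z‖ :=
      mul_le_mul_of_nonneg_right h3 (norm_nonneg _)
    have h5 : (1 / 2 - ‖z0‖) * a = ρ * (2 * a) := by rw [hρdef]; ring
    exact le_of_mul_le_mul_left (by linarith) hρ
  -- Schwarz for the derivative
  have hsch : ∀ z ∈ ball z0 ρ, ‖deriv L z - deriv L z0‖ ≤ 3 * a / ρ * ‖z - z0‖ := by
    intro z hz
    have h1 : MapsTo (deriv L) (ball z0 ρ) (closedBall (deriv L z0) (3 * a)) := by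
      intro y hy
      rw [mem_closedBall, dist_eq_norm]
      have := norm_sub_le (deriv L y) (deriv L z0)
      have := hbd y hy
      linarith
    have h2 := dist_le_div_mul_dist_of_mapsTo_ball
      (hdL.mono (hsub2.trans hsub)) h1 hz
    rwa [dist_eq_norm, dist_eq_norm] at h2
  obtain ⟨t, htdef⟩ : ∃ t, t = ρ / 6 := ⟨_, rfl⟩
  have ht : 0 < t := by rw [htdef]; positivity
  have htρ : closedBall z0 t ⊆ ball z0 ρ := closedBall_subset_ball (by rw [htdef]; linarith)
  have hP : ∀ z ∈ closedBall z0 t,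
      ‖(L z - deriv L z0 * z) - (L z0 - deriv L z0 * z0)‖ ≤ a / 2 * ‖z - z0‖ := by
    intro z hz
    have hd : ∀ y ∈ closedBall z0 t, HasDerivAt (fun y => L y - deriv L z0 * y)
        (deriv L y - deriv L z0) y := by
      intro y hy
      have h1 : HasDerivAt L (deriv L y) y :=
        (hL.differentiableAt (isOpen_ball.mem_nhds (hsub (hsub2 (htρ hy))))).hasDerivAt
      have h2 : HasDerivAt (fun y : ℂ => deriv L z0 * y) (deriv L z0 * 1) y :=
        (hasDerivAt_id y).const_mul (deriv L z0)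
      rw [mul_one] at h2
      exact h1.fun_sub h2
    refine (convex_closedBall z0 t).norm_image_sub_le_of_norm_hasDerivWithin_le
      (f := fun y => L y - deriv L z0 * y) (f' := fun y => deriv L y - deriv L z0)
      (fun y hy => (hd y hy).hasDerivWithinAt) ?_ (mem_closedBall_self ht.le) hz
    intro y hy
    have h1 := hsch y (htρ hy)
    rw [mem_closedBall, dist_eq_norm] at hy
    have h2 : 3 * a / ρ * ‖y - z0‖ ≤ 3 * a / ρ * t := by gcongr
    have h3 : 3 * a / ρ * t = a / 2 := by rw [htdef]; field_simp; norm_num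
    linarith
  have hlow : ∀ z ∈ closedBall z0 t, a / 2 * ‖z - z0‖ ≤ ‖L z - L z0‖ := by
    intro z hz
    have h1 := hP z hz
    have h2 : (L z - deriv L z0 * z) - (L z0 - deriv L z0 * z0) =
        (L z - L z0) - deriv L z0 * (z - z0) := by ring
    rw [h2] at h1
    have h3 : ‖deriv L z0 * (z - z0)‖ = a * ‖z - z0‖ := by rw [norm_mul]
    have h4 := norm_sub_norm_le (deriv L z0 * (z - z0)) (L z - L z0)
    rw [norm_sub_rev (deriv L z0 * (z - z0)) (L z - L z0), h3] at h4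
    linarith
  refine ⟨L z0, ?_⟩
  have hcl : DiffContOnCl ℂ L (ball z0 t) := by
    apply DifferentiableOn.diffContOnCl
    refine hL.mono ?_
    refine (closure_ball_subset_closedBall).trans ?_
    exact htρ.trans (hsub2.trans hsub)
  have himg := hcl.ball_subset_image_closedBall ht (ε := a / 2 * t) (by
      intro z hz
      have h1 := hlow z (sphere_subset_closedBall hz)
      rw [mem_sphere, dist_eq_norm] at hz
      rwa [hz] at h1) (by
      have h1 : ∀ᶠ z in 𝓝[≠] z0, L z ≠ L z0 := by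
        filter_upwards [self_mem_nhdsWithin, mem_nhdsWithin_of_mem_nhds (closedBall_mem_nhds z0 ht)]
          with z hz hz2 heq
        have h2 := hlow z hz2
        rw [heq, sub_self, norm_zero] at h2
        have h3 : 0 < ‖z - z0‖ := norm_pos_iff.2 (sub_ne_zero.2 hz)
        have : 0 < a / 2 * ‖z - z0‖ := by positivity
        linarith
      exact h1.frequently.filter_mono nhdsWithin_le_nhds)
  refine (ball_subset_ball ?_).trans (himg.trans ?_)
  · have h1 : (1 / 2 - ‖z0‖) * a = 2 * (ρ * a) := by rw [hρdef]; ring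
    rw [h1] at hm
    have h2 : a / 2 * t / 2 = ρ * a / 24 := by rw [htdef]; ring
    rw [h2]
    linarith
  · exact Set.image_mono (htρ.trans (hsub2.trans hsub))

/-- holomorphic logarithm on the unit disc -/
theorem exists_log {φ : ℂ → ℂ} (hφ : DifferentiableOn ℂ φ (ball 0 1))
    (h0 : ∀ z ∈ ball (0 : ℂ) 1, φ z ≠ 0) :
    ∃ L : ℂ → ℂ, (∀ z ∈ ball (0 : ℂ) 1, HasDerivAt L (deriv φ z / φ z) z) ∧
      ∀ z ∈ ball (0 : ℂ) 1, exp (L z) = φ z := by
  have hd : DifferentiableOn ℂ (fun z => deriv φ z / φ z) (ball 0 1) :=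
    (hφ.deriv isOpen_ball).div hφ h0
  obtain ⟨L, hL0, hL⟩ := (hd.isExactOn_ball).with_val_at 0 (log (φ 0))
  refine ⟨L, hL, ?_⟩
  have h1 : ∀ z ∈ ball (0 : ℂ) 1, HasDerivAt (fun z => φ z * exp (-L z)) 0 z := by
    intro z hz
    have h2 : HasDerivAt φ (deriv φ z) z :=
      (hφ.differentiableAt (isOpen_ball.mem_nhds hz)).hasDerivAt
    have h3 := h2.mul ((hL z hz).neg.cexp)
    refine h3.congr_deriv ?_
    have := h0 z hz
    field_simp
    ring
  intro z hz
  have h4 : (fun z => φ z * exp (-L z)) z = (fun z => φ z * exp (-L z)) 0 := by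
    refine isOpen_ball.is_const_of_deriv_eq_zero (convex_ball (0 : ℂ) 1).isPreconnected
      (fun y hy => (h1 y hy).differentiableAt.differentiableWithinAt) (fun y hy => (h1 y hy).deriv)
      hz (mem_ball_self one_pos)
  simp only at h4
  rw [hL0, exp_neg, exp_neg, exp_log (h0 0 (mem_ball_self one_pos)),
    mul_inv_cancel₀ (h0 0 (mem_ball_self one_pos))] at h4
  have h5 := exp_ne_zero (L z)
  field_simp at h4
  exact h4.symm

/-- Koebe covering theorem with a constant: an omitted value is not too close. -/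
theorem koebe {f : ℂ → ℂ} (hf : DifferentiableOn ℂ f (ball 0 1)) (hinj : InjOn f (ball 0 1))
    {w : ℂ} (hw : ∀ z ∈ ball (0 : ℂ) 1, f z ≠ w) : ‖deriv f 0‖ ≤ 512 * ‖f 0 - w‖ := by
  have hφ : DifferentiableOn ℂ (fun z => f z - w) (ball 0 1) := hf.sub_const w
  obtain ⟨L, hL, hexp⟩ := exists_log hφ (fun z hz => sub_ne_zero.2 (hw z hz))
  have hLd : DifferentiableOn ℂ L (ball 0 1) := fun z hz =>
    (hL z hz).differentiableAt.differentiableWithinAt
  obtain ⟨b, hb⟩ := bloch hLd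
  have h0 : (0 : ℂ) ∈ ball (0 : ℂ) 1 := mem_ball_self one_pos
  have hle : ‖deriv L 0‖ / 128 ≤ Real.pi := by
    by_contra hc
    push Not at hc
    have hm : ∀ s : ℝ, |s| ≤ 1 → b + (s * Real.pi : ℝ) * I ∈ ball b (‖deriv L 0‖ / 128) := by
      intro s hs
      rw [mem_ball, dist_eq_norm, add_sub_cancel_left, norm_mul, norm_I, mul_one, norm_real,
        Real.norm_eq_abs, abs_mul, abs_of_pos Real.pi_pos]
      have : |s| * Real.pi ≤ 1 * Real.pi := by gcongr
      linarith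
    obtain ⟨z1, hz1, e1⟩ := hb (hm 1 (by norm_num))
    obtain ⟨z2, hz2, e2⟩ := hb (hm (-1) (by norm_num))
    have e3 : L z1 = L z2 + 2 * Real.pi * I := by
      rw [e1, e2]; push_cast; ring
    have e4 : exp (L z1) = exp (L z2) := by
      rw [e3, exp_add, exp_two_pi_mul_I, mul_one]
    rw [hexp z1 hz1, hexp z2 hz2] at e4
    have e5 : f z1 = f z2 := by linear_combination e4
    have e6 := hinj hz1 hz2 e5
    rw [e6] at e3
    have e7 : (2 : ℂ) * Real.pi * I = 0 := by linear_combination -e3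
    have := Real.pi_pos
    have e8 : (Real.pi : ℂ) ≠ 0 := by exact_mod_cast this.ne'
    simp [e8] at e7
  have hd : deriv L 0 = deriv f 0 / (f 0 - w) := by
    rw [(hL 0 h0).deriv]
    congr 1
    simp
  rw [hd, norm_div] at hle
  have hne : 0 < ‖f 0 - w‖ := norm_pos_iff.2 (sub_ne_zero.2 (hw 0 h0))
  have hpi := Real.pi_le_four
  have h1 : ‖deriv f 0‖ / ‖f 0 - w‖ ≤ 512 := by linarith
  rwa [div_le_iff₀ hne] at h1

/-- scaled version -/
theorem koebe' {f : ℂ → ℂ} {z0 : ℂ} {R : ℝ} (hR : 0 < R) (hf : DifferentiableOn ℂ f (ball z0 R))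
    (hinj : InjOn f (ball z0 R)) {w : ℂ} (hw : ∀ z ∈ ball z0 R, f z ≠ w) :
    R * ‖deriv f z0‖ ≤ 512 * ‖f z0 - w‖ := by
  have hmaps : ∀ z ∈ ball (0 : ℂ) 1, z0 + R * z ∈ ball z0 R := by
    intro z hz
    rw [mem_ball, dist_zero_right] at hz
    rw [mem_ball, dist_eq_norm, add_sub_cancel_left, norm_mul, norm_real, Real.norm_eq_abs,
      abs_of_pos hR]
    nlinarith
  have hR' : (R : ℂ) ≠ 0 := by exact_mod_cast hR.ne'
  have hda : ∀ z : ℂ, HasDerivAt (fun z : ℂ => z0 + R * z) R z := fun z => by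
    simpa using ((hasDerivAt_id z).const_mul (R : ℂ)).const_add z0
  have h1 : DifferentiableOn ℂ (fun z : ℂ => f (z0 + R * z)) (ball 0 1) := by
    refine hf.comp (fun z _ => (hda z).differentiableAt.differentiableWithinAt) hmaps
  have h2 : InjOn (fun z : ℂ => f (z0 + R * z)) (ball 0 1) := by
    intro x hx y hy hxy
    have := hinj (hmaps x hx) (hmaps y hy) hxy
    have h3 : (R : ℂ) * x = R * y := by linear_combination this
    exact mul_left_cancel₀ hR' h3
  have h3 := koebe h1 h2 (w := w) (fun z hz => hw _ (hmaps z hz))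
  have h4 : HasDerivAt (fun z : ℂ => f (z0 + R * z)) (deriv f z0 * R) 0 := by
    have h5 : HasDerivAt f (deriv f z0) (z0 + R * 0) := by
      rw [mul_zero, add_zero]
      exact (hf.differentiableAt (isOpen_ball.mem_nhds (mem_ball_self hR))).hasDerivAt
    exact h5.comp 0 (hda 0)
  rw [h4.deriv, norm_mul, norm_real, Real.norm_eq_abs, abs_of_pos hR] at h3
  simp only [mul_zero, add_zero] at h3
  linarith

/-- second coefficient bound with a constant -/
theorem second0 {f : ℂ → ℂ} (hf : DifferentiableOn ℂ f (ball 0 1)) (hinj : InjOn f (ball 0 1))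
    (h0 : deriv f 0 ≠ 0) : ‖deriv (deriv f) 0‖ ≤ 4104 * ‖deriv f 0‖ := by
  have hmem0 : (0 : ℂ) ∈ ball (0 : ℂ) 1 := mem_ball_self one_pos
  have hψd : DifferentiableOn ℂ (dslope f 0) (ball 0 1) :=
    (Complex.differentiableOn_dslope (isOpen_ball.mem_nhds hmem0)).2 hf
  have hmul : ∀ z, z * dslope f 0 z = f z - f 0 := by
    intro z
    have := sub_smul_dslope f 0 z
    simpa using this
  have hψ0 : ∀ z ∈ ball (0 : ℂ) 1, dslope f 0 z ≠ 0 := by
    intro z hz hc
    rcases eq_or_ne z 0 with rfl | hz0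
    · rw [dslope_same] at hc
      exact h0 hc
    · have h1 := hmul z
      rw [hc, mul_zero] at h1
      exact hz0 (hinj hz hmem0 (sub_eq_zero.1 h1.symm))
  have hψ' : DifferentiableOn ℂ (deriv (dslope f 0)) (ball 0 1) := hψd.deriv isOpen_ball
  have hHD : ∀ z ∈ ball (0 : ℂ) 1, HasDerivAt (dslope f 0) (deriv (dslope f 0) z) z := fun z hz =>
    (hψd.differentiableAt (isOpen_ball.mem_nhds hz)).hasDerivAt
  have hfeq : f = fun z => f 0 + z * dslope f 0 z := by
    funext z; rw [hmul]; ring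
  have hf' : ∀ z ∈ ball (0 : ℂ) 1, deriv f z = dslope f 0 z + z * deriv (dslope f 0) z := by
    intro z hz
    have h1 : HasDerivAt (fun z => f 0 + z * dslope f 0 z)
        (1 * dslope f 0 z + z * deriv (dslope f 0) z) z :=
      ((hasDerivAt_id z).mul (hHD z hz)).const_add (f 0)
    rw [← hfeq, one_mul] at h1
    exact h1.deriv
  have hf'' : deriv (deriv f) 0 = 2 * deriv (dslope f 0) 0 := by
    have h1 : deriv f =ᶠ[𝓝 0] fun z => dslope f 0 z + z * deriv (dslope f 0) z := by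
      filter_upwards [isOpen_ball.mem_nhds hmem0] with z hz using hf' z hz
    have h2 : HasDerivAt (deriv (dslope f 0)) (deriv (deriv (dslope f 0)) 0) 0 :=
      (hψ'.differentiableAt (isOpen_ball.mem_nhds hmem0)).hasDerivAt
    have h3 := (hHD 0 hmem0).fun_add ((hasDerivAt_id (0 : ℂ)).fun_mul h2)
    rw [h1.deriv_eq]
    have h4 : (fun z : ℂ => dslope f 0 z + z * deriv (dslope f 0) z) =
        fun z : ℂ => dslope f 0 z + id z * deriv (dslope f 0) z := rfl
    rw [h4, h3.deriv]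
    simp
    ring
  -- bound on the circle of radius 1/4
  have hq : DifferentiableOn ℂ (fun z => deriv (dslope f 0) z / dslope f 0 z) (ball 0 1) :=
    hψ'.div hψd hψ0
  have hbd : ∀ z ∈ frontier (ball (0 : ℂ) (1 / 4)),
      ‖deriv (dslope f 0) z / dslope f 0 z‖ ≤ 2052 := by
    intro z hz
    rw [frontier_ball _ (by norm_num), mem_sphere, dist_zero_right] at hz
    have hzb : z ∈ ball (0 : ℂ) 1 := by rw [mem_ball, dist_zero_right, hz]; norm_num
    have hsub : ball z (1 / 4) ⊆ ball (0 : ℂ) 1 := by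
      intro y hy
      rw [mem_ball, dist_eq_norm] at hy
      rw [mem_ball, dist_zero_right]
      have := norm_add_le (y - z) z
      rw [sub_add_cancel] at this
      linarith
    have h1 := koebe' (by norm_num : (0 : ℝ) < 1 / 4) (hf.mono hsub) (hinj.mono hsub) (w := f 0) (by
      intro y hy heq
      have := hinj (hsub hy) hmem0 heq
      rw [this, mem_ball, dist_comm, dist_zero_right, hz] at hy
      linarith)
    have h2 : ‖f z - f 0‖ = 1 / 4 * ‖dslope f 0 z‖ := by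
      rw [← hmul, norm_mul, hz]
    rw [h2] at h1
    have h3 : ‖z * deriv (dslope f 0) z‖ ≤ 513 * ‖dslope f 0 z‖ := by
      have e : z * deriv (dslope f 0) z = deriv f z - dslope f 0 z := by
        rw [hf' z hzb]; ring
      rw [e]
      have := norm_sub_le (deriv f z) (dslope f 0 z)
      linarith
    rw [norm_mul, hz] at h3
    have hpos : 0 < ‖dslope f 0 z‖ := norm_pos_iff.2 (hψ0 z hzb)
    rw [norm_div, div_le_iff₀ hpos]
    linarith
  have hcl : DiffContOnCl ℂ (fun z => deriv (dslope f 0) z / dslope f 0 z) (ball 0 (1 / 4)) := by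
    apply DifferentiableOn.diffContOnCl
    refine hq.mono ?_
    exact closure_ball_subset_closedBall.trans (closedBall_subset_ball (by norm_num))
  have h5 := norm_le_of_forall_mem_frontier_norm_le isBounded_ball hcl hbd
    (subset_closure (mem_ball_self (by norm_num) : (0 : ℂ) ∈ ball (0 : ℂ) (1 / 4)))
  rw [norm_div, dslope_same, div_le_iff₀ (norm_pos_iff.2 h0)] at h5
  rw [hf'', norm_mul]
  norm_num
  linarith

theorem second1 {f : ℂ → ℂ} (hf : DifferentiableOn ℂ f (ball 0 1)) (hinj : InjOn f (ball 0 1))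
    {z0 : ℂ} (hz0 : z0 ∈ ball (0 : ℂ) 1) (h0 : deriv f z0 ≠ 0) :
    (1 - ‖z0‖) * ‖deriv (deriv f) z0‖ ≤ 4104 * ‖deriv f z0‖ := by
  have hn : ‖z0‖ < 1 := by simpa using hz0
  obtain ⟨R, hRdef⟩ : ∃ R, R = 1 - ‖z0‖ := ⟨_, rfl⟩
  have hR : 0 < R := by rw [hRdef]; linarith
  have hR' : (R : ℂ) ≠ 0 := by exact_mod_cast hR.ne'
  have hmaps : ∀ z ∈ ball (0 : ℂ) 1, z0 + R * z ∈ ball (0 : ℂ) 1 := by
    intro z hz
    rw [mem_ball, dist_zero_right] at hz ⊢
    have h1 := norm_add_le z0 (R * z)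
    rw [norm_mul, norm_real, Real.norm_eq_abs, abs_of_pos hR] at h1
    nlinarith
  have hda : ∀ z : ℂ, HasDerivAt (fun z : ℂ => z0 + R * z) R z := fun z => by
    have h := ((hasDerivAt_id z).const_mul (R : ℂ)).const_add z0
    rw [mul_one] at h
    exact h
  have h1 : DifferentiableOn ℂ (fun z : ℂ => f (z0 + R * z)) (ball 0 1) :=
    hf.comp (fun z _ => (hda z).differentiableAt.differentiableWithinAt) hmaps
  have h2 : InjOn (fun z : ℂ => f (z0 + R * z)) (ball 0 1) := by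
    intro x hx y hy hxy
    have := hinj (hmaps x hx) (hmaps y hy) hxy
    have h3 : (R : ℂ) * x = R * y := by linear_combination this
    exact mul_left_cancel₀ hR' h3
  have hd1 : ∀ z ∈ ball (0 : ℂ) 1, deriv (fun z : ℂ => f (z0 + R * z)) z =
      deriv f (z0 + R * z) * R := by
    intro z hz
    have h5 : HasDerivAt f (deriv f (z0 + R * z)) (z0 + R * z) :=
      (hf.differentiableAt (isOpen_ball.mem_nhds (hmaps z hz))).hasDerivAt
    exact (h5.comp z (hda z)).deriv
  have hmem0 : (0 : ℂ) ∈ ball (0 : ℂ) 1 := mem_ball_self one_pos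
  have hd2 : deriv (deriv (fun z : ℂ => f (z0 + R * z))) 0 = deriv (deriv f) z0 * R * R := by
    have h3 : deriv (fun z : ℂ => f (z0 + R * z)) =ᶠ[𝓝 0] fun z => deriv f (z0 + R * z) * R := by
      filter_upwards [isOpen_ball.mem_nhds hmem0] with z hz using hd1 z hz
    rw [h3.deriv_eq]
    have h5 : HasDerivAt (deriv f) (deriv (deriv f) z0) (z0 + R * 0) := by
      rw [mul_zero, add_zero]
      exact ((hf.deriv isOpen_ball).differentiableAt (isOpen_ball.mem_nhds hz0)).hasDerivAt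
    exact ((h5.comp 0 (hda 0)).mul_const (R : ℂ)).deriv
  have h6 := second0 h1 h2 (by
    rw [hd1 0 hmem0, mul_zero, add_zero]
    exact mul_ne_zero h0 hR')
  rw [hd2, hd1 0 hmem0, mul_zero, add_zero, norm_mul, norm_mul, norm_mul, norm_real,
    Real.norm_eq_abs, abs_of_pos hR] at h6
  rw [← hRdef]
  have h7 : (R * ‖deriv (deriv f) z0‖) * R ≤ (4104 * ‖deriv f z0‖) * R := by linarith
  exact le_of_mul_le_mul_right h7 hR

/-- The derivative of a univalent function does not vanish. -/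
theorem deriv_ne {f : ℂ → ℂ} (hf : DifferentiableOn ℂ f (ball 0 1)) (hinj : InjOn f (ball 0 1))
    {z0 : ℂ} (hz0 : z0 ∈ ball (0 : ℂ) 1) : deriv f z0 ≠ 0 := by
  intro hz
  have hF : DifferentiableOn ℂ (deriv f) (ball 0 1) := hf.deriv isOpen_ball
  have hFa : AnalyticOnNhd ℂ (deriv f) (ball 0 1) := hF.analyticOnNhd isOpen_ball
  -- f' is not locally zero at z0
  have hnz : ¬ ∀ᶠ z in 𝓝 z0, deriv f z = 0 := by
    intro hc
    obtain ⟨r, hr, hrb⟩ := Metric.eventually_nhds_iff_ball.1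
      (hc.and (isOpen_ball.eventually_mem hz0))
    have h1 : f (z0 + (r / 2 : ℝ)) = f z0 := by
      refine isOpen_ball.is_const_of_deriv_eq_zero (convex_ball z0 r).isPreconnected
        (fun y hy => (hf.differentiableAt (isOpen_ball.mem_nhds (hrb y hy).2)).differentiableWithinAt)
        (fun y hy => (hrb y hy).1) ?_ (mem_ball_self hr)
      rw [mem_ball, dist_eq_norm, add_sub_cancel_left, norm_real, Real.norm_eq_abs,
        abs_of_pos (by positivity)]
      linarith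
    have h2 : z0 + (r / 2 : ℝ) ∈ ball z0 r := by
      rw [mem_ball, dist_eq_norm, add_sub_cancel_left, norm_real, Real.norm_eq_abs,
        abs_of_pos (by positivity)]
      linarith
    have h3 := hinj (hrb _ h2).2 hz0 h1
    have h4 : ((r / 2 : ℝ) : ℂ) = 0 := by linear_combination h3
    have : r / 2 = 0 := by exact_mod_cast h4
    linarith
  have hpunct : ∀ᶠ z in 𝓝[≠] z0, deriv f z ≠ 0 := by
    rcases (hFa z0 hz0).eventually_eq_zero_or_eventually_ne_zero with h | h
    · exact absurd h hnz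
    · exact h
  -- the inequality extends to z0
  have hn : ‖z0‖ < 1 := by simpa using hz0
  obtain ⟨R, hRdef⟩ : ∃ R, R = (1 - ‖z0‖) / 2 := ⟨_, rfl⟩
  have hR : 0 < R := by rw [hRdef]; linarith
  obtain ⟨r1, hr1, hrb⟩ := Metric.mem_nhdsWithin_iff.1 hpunct
  obtain ⟨r, hrdef⟩ : ∃ r, r = min (min (r1 / 2) R) (R / 8208) := ⟨_, rfl⟩
  have hr : 0 < r := by rw [hrdef]; positivity
  have hrr1 : r < r1 := by
    have : r ≤ r1 / 2 := by rw [hrdef]; exact (min_le_left _ _).trans (min_le_left _ _)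
    linarith
  have hrR : r ≤ R := by rw [hrdef]; exact (min_le_left _ _).trans (min_le_right _ _)
  have hrR2 : r ≤ R / 8208 := by rw [hrdef]; exact min_le_right _ _
  have hnorm : ∀ z ∈ closedBall z0 r, ‖z‖ ≤ 1 - R := by
    intro z hz
    rw [mem_closedBall, dist_eq_norm] at hz
    have := norm_add_le (z - z0) z0
    rw [sub_add_cancel] at this
    linarith
  have hsub : closedBall z0 r ⊆ ball (0 : ℂ) 1 := by
    intro z hz
    rw [mem_ball, dist_zero_right]
    linarith [hnorm z hz]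
  have hineq0 : ∀ z ∈ closedBall z0 r, z ≠ z0 → R * ‖deriv (deriv f) z‖ ≤ 4104 * ‖deriv f z‖ := by
    intro z hz hne
    have h1 : deriv f z ≠ 0 := hrb ⟨closedBall_subset_ball hrr1 hz, hne⟩
    have h2 := second1 hf hinj (hsub hz) h1
    have h3 : R * ‖deriv (deriv f) z‖ ≤ (1 - ‖z‖) * ‖deriv (deriv f) z‖ :=
      mul_le_mul_of_nonneg_right (by linarith [hnorm z hz]) (norm_nonneg _)
    linarith
  have hF' : DifferentiableOn ℂ (deriv (deriv f)) (ball 0 1) := hF.deriv isOpen_ball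
  have hineq : ∀ z ∈ closedBall z0 r, R * ‖deriv (deriv f) z‖ ≤ 4104 * ‖deriv f z‖ := by
    intro z hz
    rcases eq_or_ne z z0 with rfl | hne
    · have hc1 : ContinuousAt (fun y => R * ‖deriv (deriv f) y‖) z :=
        continuousAt_const.mul ((hF'.continuousOn.continuousAt (isOpen_ball.mem_nhds hz0)).norm)
      have hc2 : ContinuousAt (fun y => 4104 * ‖deriv f y‖) z :=
        continuousAt_const.mul ((hF.continuousOn.continuousAt (isOpen_ball.mem_nhds hz0)).norm)
      have t1 : Tendsto (fun y => R * ‖deriv (deriv f) y‖) (𝓝[≠] z) (𝓝 (R * ‖deriv (deriv f) z‖)) :=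
        hc1.tendsto.mono_left nhdsWithin_le_nhds
      have t2 : Tendsto (fun y => 4104 * ‖deriv f y‖) (𝓝[≠] z) (𝓝 (4104 * ‖deriv f z‖)) :=
        hc2.tendsto.mono_left nhdsWithin_le_nhds
      refine le_of_tendsto_of_tendsto t1 t2 ?_
      filter_upwards [self_mem_nhdsWithin, mem_nhdsWithin_of_mem_nhds (closedBall_mem_nhds z hr)]
        with y hy hy2
      exact hineq0 y hy2 hy
    · exact hineq0 z hz hne
  -- maximum argument
  obtain ⟨z2, hz2, hmax⟩ := (isCompact_closedBall z0 r).exists_isMaxOn ⟨z0, mem_closedBall_self hr.le⟩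
    ((hF.continuousOn.mono hsub).norm)
  have hmax' : ∀ z ∈ closedBall z0 r, ‖deriv f z‖ ≤ ‖deriv f z2‖ := fun z hz => hmax hz
  have hlip : ‖deriv f z2 - deriv f z0‖ ≤ (4104 / R * ‖deriv f z2‖) * ‖z2 - z0‖ := by
    refine (convex_closedBall z0 r).norm_image_sub_le_of_norm_deriv_le (𝕜 := ℂ)
      (fun y hy => hF.differentiableAt (isOpen_ball.mem_nhds (hsub hy))) ?_
      (mem_closedBall_self hr.le) hz2
    intro y hy
    have h1 := hineq y hy
    have h2 := hmax' y hy
    rw [div_mul_eq_mul_div, le_div_iff₀ hR]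
    linarith
  rw [hz, sub_zero] at hlip
  have hz2' : ‖z2 - z0‖ ≤ R / 8208 := by
    rw [mem_closedBall, dist_eq_norm] at hz2
    linarith
  have h3 : (4104 / R * ‖deriv f z2‖) * ‖z2 - z0‖ ≤ (4104 / R * ‖deriv f z2‖) * (R / 8208) := by
    gcongr
  have h4 : (4104 / R * ‖deriv f z2‖) * (R / 8208) = ‖deriv f z2‖ / 2 := by
    field_simp; ring
  have h5 : ‖deriv f z2‖ ≤ 0 := by linarith [norm_nonneg (deriv f z2)]
  apply hnz
  filter_upwards [closedBall_mem_nhds z0 hr] with y hy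
  exact norm_le_zero_iff.1 ((hmax' y hy).trans h5)

/-- `log f'` exists and is a Bloch function. -/
theorem exists_bloch {f : ℂ → ℂ} (hf : DifferentiableOn ℂ f (ball 0 1)) (hinj : InjOn f (ball 0 1)) :
    ∃ g : ℂ → ℂ, (∀ z ∈ ball (0 : ℂ) 1, DifferentiableAt ℂ g z) ∧
      (∀ z ∈ ball (0 : ℂ) 1, exp (g z) = deriv f z) ∧
      ∀ z ∈ ball (0 : ℂ) 1, (1 - ‖z‖) * ‖deriv g z‖ ≤ 4104 := by
  obtain ⟨g, hg, hexp⟩ := exists_log (hf.deriv isOpen_ball) (fun z hz => deriv_ne hf hinj hz)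
  refine ⟨g, fun z hz => (hg z hz).differentiableAt, hexp, fun z hz => ?_⟩
  have hne := deriv_ne hf hinj hz
  have h1 := second1 hf hinj hz hne
  rw [(hg z hz).deriv, norm_div, ← mul_div_assoc, div_le_iff₀ (norm_pos_iff.2 hne)]
  exact h1

/-- Poisson kernel at the boundary point `e^{it}`. -/
noncomputable def pk (t : ℝ) (z : ℂ) : ℝ := (1 - ‖z‖ ^ 2) / ‖exp (t * I) - z‖ ^ 2

/-- Herglotz integral of the indicator of `S`. -/
noncomputable def hS (S : Set ℝ) (z : ℂ) : ℂ :=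
  (1 / (2 * Real.pi) : ℝ) * ∫ t in S, (exp (t * I) + z) / (exp (t * I) - z)

/-- harmonic measure of `S` -/
noncomputable def vS (S : Set ℝ) (z : ℂ) : ℝ := (1 / (2 * Real.pi)) * ∫ t in S, pk t z

lemma low (t : ℝ) (z : ℂ) : 1 - ‖z‖ ≤ ‖exp (t * I) - z‖ := by
  have h1 := norm_sub_norm_le (exp (t * I)) z
  rw [norm_exp_ofReal_mul_I] at h1
  exact h1

lemma ne0 (t : ℝ) {z : ℂ} (hz : z ∈ ball (0 : ℂ) 1) : exp (t * I) - z ≠ 0 := by
  have h1 := low t z
  rw [mem_ball, dist_zero_right] at hz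
  intro h
  rw [h, norm_zero] at h1
  linarith

lemma kernel_re (t : ℝ) {z : ℂ} (hz : z ∈ ball (0 : ℂ) 1) :
    ((exp (t * I) + z) / (exp (t * I) - z)).re = pk t z := by
  have hne := ne0 t hz
  have h1 : normSq (exp (t * I)) = 1 := by
    rw [normSq_eq_norm_sq, norm_exp_ofReal_mul_I]; norm_num
  unfold pk
  rw [← normSq_eq_norm_sq, ← normSq_eq_norm_sq]
  have h2 : (exp (t * I) + z) / (exp (t * I) - z) =
      ((exp (t * I) + z) * (starRingEnd ℂ) (exp (t * I) - z)) / (normSq (exp (t * I) - z) : ℂ) := by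
    rw [← mul_conj]
    have : (starRingEnd ℂ) (exp (t * I) - z) ≠ 0 := by
      rw [Ne, map_eq_zero]; exact hne
    field_simp
  rw [h2, div_ofReal_re]
  congr 1
  rw [normSq_apply] at h1
  rw [normSq_apply]
  simp only [mul_re, add_re, add_im, conj_re, conj_im, sub_re, sub_im]
  linear_combination h1

lemma pk_nonneg (t : ℝ) {z : ℂ} (hz : z ∈ ball (0 : ℂ) 1) : 0 ≤ pk t z := by
  rw [mem_ball, dist_zero_right] at hz
  unfold pk
  have := norm_nonneg z
  have h1 : 0 ≤ 1 - ‖z‖ ^ 2 := by nlinarith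
  positivity

lemma pk_le (t : ℝ) {z : ℂ} (hz : z ∈ ball (0 : ℂ) 1) : pk t z ≤ 2 / (1 - ‖z‖) := by
  rw [mem_ball, dist_zero_right] at hz
  unfold pk
  have h0 := norm_nonneg z
  have h1 : 0 < 1 - ‖z‖ := by linarith
  have h2 := low t z
  have h3 : (1 - ‖z‖) ^ 2 ≤ ‖exp (t * I) - z‖ ^ 2 := by gcongr
  rw [div_le_div_iff₀ (by nlinarith) h1]
  nlinarith

lemma cont_exp : Continuous (fun t : ℝ => exp (t * I)) := by fun_prop

lemma cont_kernel {z : ℂ} (hz : z ∈ ball (0 : ℂ) 1) :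
    Continuous (fun t : ℝ => (exp (t * I) + z) / (exp (t * I) - z)) := by
  refine Continuous.div (by fun_prop) (by fun_prop) (fun t => ne0 t hz)

lemma cont_pk {z : ℂ} (hz : z ∈ ball (0 : ℂ) 1) : Continuous (fun t : ℝ => pk t z) := by
  have : (fun t : ℝ => pk t z) = fun t : ℝ => ((exp (t * I) + z) / (exp (t * I) - z)).re := by
    funext t; rw [kernel_re t hz]
  rw [this]
  exact continuous_re.comp (cont_kernel hz)

variable {S : Set ℝ}

lemma int_kernel (hS : volume S ≠ ⊤) {z : ℂ} (hz : z ∈ ball (0 : ℂ) 1) :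
    IntegrableOn (fun t : ℝ => (exp (t * I) + z) / (exp (t * I) - z)) S := by
  have : IsFiniteMeasure (volume.restrict S) := ⟨by
    rw [Measure.restrict_apply_univ]; exact lt_top_iff_ne_top.2 hS⟩
  refine Integrable.of_bound (cont_kernel hz).aestronglyMeasurable (2 / (1 - ‖z‖)) ?_
  filter_upwards with t
  have hz' := hz
  rw [mem_ball, dist_zero_right] at hz'
  have h1 : 0 < 1 - ‖z‖ := by linarith
  rw [norm_div]
  have h2 := norm_add_le (exp (t * I)) z
  rw [norm_exp_ofReal_mul_I] at h2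
  exact div_le_div₀ (by norm_num) (by linarith) h1 (low t z)

lemma int_pk (hS : volume S ≠ ⊤) {z : ℂ} (hz : z ∈ ball (0 : ℂ) 1) :
    IntegrableOn (fun t : ℝ => pk t z) S := by
  have h := (int_kernel hS hz).re
  refine h.congr ?_
  filter_upwards with t
  exact kernel_re t hz

lemma hS_re (hS' : volume S ≠ ⊤) {z : ℂ} (hz : z ∈ ball (0 : ℂ) 1) : (hS S z).re = vS S z := by
  unfold hS vS
  rw [re_ofReal_mul]
  congr 1
  have h := integral_re (𝕜 := ℂ) (int_kernel hS' hz)
  have h2 : (∫ t in S, (exp (t * I) + z) / (exp (t * I) - z)).re =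
      RCLike.re (∫ t in S, (exp (t * I) + z) / (exp (t * I) - z)) := rfl
  rw [h2, ← h]
  refine integral_congr_ae ?_
  filter_upwards with t
  exact kernel_re t hz

lemma hS_diff (hS' : volume S ≠ ⊤) {z : ℂ} (hz : z ∈ ball (0 : ℂ) 1) :
    DifferentiableAt ℂ (hS S) z := by
  have : IsFiniteMeasure (volume.restrict S) := ⟨by
    rw [Measure.restrict_apply_univ]; exact lt_top_iff_ne_top.2 hS'⟩
  have hz' := hz
  rw [mem_ball, dist_zero_right] at hz'
  obtain ⟨R, hR1, hR2⟩ := exists_between hz'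
  have hsub : ∀ y ∈ ball (0 : ℂ) R, y ∈ ball (0 : ℂ) 1 := fun y hy => ball_subset_ball hR2.le hy
  have hzR : z ∈ ball (0 : ℂ) R := by rw [mem_ball, dist_zero_right]; exact hR1
  have key := hasDerivAt_integral_of_dominated_loc_of_deriv_le (𝕜 := ℂ) (μ := volume.restrict S)
    (F := fun z t => (exp ((t : ℝ) * I) + z) / (exp (t * I) - z))
    (F' := fun z t => 2 * exp ((t : ℝ) * I) / (exp (t * I) - z) ^ 2)
    (bound := fun _ => 2 / (1 - R) ^ 2) (s := ball (0 : ℂ) R) (x₀ := z)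
    (isOpen_ball.mem_nhds hzR)
    (by
      filter_upwards [isOpen_ball.mem_nhds hz] with y hy
      exact (cont_kernel hy).aestronglyMeasurable)
    (int_kernel hS' hz)
    (by
      refine Continuous.aestronglyMeasurable ?_
      refine Continuous.div (by fun_prop) (by fun_prop) (fun t => pow_ne_zero 2 (ne0 t hz)))
    (by
      filter_upwards with t
      intro y hy
      have hy' := hy
      rw [mem_ball, dist_zero_right] at hy'
      rw [norm_div, norm_mul, norm_exp_ofReal_mul_I, norm_pow]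
      have h1 := low t y
      have h2 : 0 < 1 - R := by linarith
      simp only [norm_ofNat, mul_one]
      gcongr
      linarith)
    (integrable_const _)
    (by
      filter_upwards with t
      intro y hy
      have hne := ne0 t (hsub y hy)
      have h1 : HasDerivAt (fun y : ℂ => exp (t * I) + y) 1 y := (hasDerivAt_id y).const_add _
      have h2 : HasDerivAt (fun y : ℂ => exp (t * I) - y) (-1) y := by
        simpa using (hasDerivAt_id y).const_sub (exp (t * I))
      refine (h1.fun_div h2 hne).congr_deriv ?_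
      congr 1
      ring)
  exact (key.2.differentiableAt).const_mul _

lemma vS_nonneg {z : ℂ} (hz : z ∈ ball (0 : ℂ) 1) : 0 ≤ vS S z := by
  unfold vS
  have : 0 ≤ ∫ t in S, pk t z := integral_nonneg fun t => pk_nonneg t hz
  have := Real.pi_pos
  positivity

lemma vS_le (hS' : volume S ≠ ⊤) {z : ℂ} (hz : z ∈ ball (0 : ℂ) 1) :
    vS S z ≤ (volume S).toReal / (Real.pi * (1 - ‖z‖)) := by
  have : IsFiniteMeasure (volume.restrict S) := ⟨by
    rw [Measure.restrict_apply_univ]; exact lt_top_iff_ne_top.2 hS'⟩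
  have hz' := hz
  rw [mem_ball, dist_zero_right] at hz'
  have h1 : 0 < 1 - ‖z‖ := by linarith
  have hpi := Real.pi_pos
  unfold vS
  have h2 : ∫ t in S, pk t z ≤ ∫ t in S, 2 / (1 - ‖z‖) :=
    integral_mono (int_pk hS' hz) (integrable_const _) fun t => pk_le t hz
  rw [integral_const, smul_eq_mul] at h2
  have h3 : (volume.restrict S).real univ = (volume S).toReal := by
    rw [measureReal_def, Measure.restrict_apply_univ]
  rw [h3] at h2
  calc 1 / (2 * Real.pi) * ∫ t in S, pk t z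
      ≤ 1 / (2 * Real.pi) * ((volume S).toReal * (2 / (1 - ‖z‖))) := by gcongr
    _ = (volume S).toReal / (Real.pi * (1 - ‖z‖)) := by field_simp

lemma norm_exp_sub (t φ : ℝ) : ‖exp (t * I) - exp (φ * I)‖ ≤ |t - φ| := by
  have h1 : exp (t * I) - exp (φ * I) = exp (φ * I) * (exp (I * ((t - φ : ℝ) : ℂ)) - 1) := by
    rw [mul_sub, mul_one, ← exp_add]
    congr 2
    push_cast; ring
  rw [h1, norm_mul, norm_exp_ofReal_mul_I, one_mul]
  exact Real.norm_exp_I_mul_ofReal_sub_one_le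

/-- lower bound -/
lemma vS_ge (hS' : volume S ≠ ⊤) {r φ a b : ℝ} (hr0 : 0 ≤ r) (hr1 : r < 1) (hab : a ≤ b)
    (h1 : Ioo a b ⊆ S) (h2 : φ - (1 - r) ≤ a) (h3 : b ≤ φ + (1 - r)) :
    (b - a) / (8 * Real.pi * (1 - r)) ≤ vS S (r * exp (φ * I)) := by
  have hn : ‖(r : ℂ) * exp (φ * I)‖ = r := by
    rw [norm_mul, norm_exp_ofReal_mul_I, norm_real, Real.norm_eq_abs, abs_of_nonneg hr0, mul_one]
  have hz : (r : ℂ) * exp (φ * I) ∈ ball (0 : ℂ) 1 := by
    rw [mem_ball, dist_zero_right, hn]; exact hr1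
  have hpi := Real.pi_pos
  have hr : 0 < 1 - r := by linarith
  unfold vS
  have h4 : ∫ t in Ioo a b, (1 / (4 * (1 - r))) ≤ ∫ t in Ioo a b, pk t (r * exp (φ * I)) := by
    refine setIntegral_mono_on (integrableOn_const (by simp)) ((int_pk hS' hz).mono_set h1)
      measurableSet_Ioo ?_
    intro t ht
    unfold pk
    rw [hn]
    have h5 : ‖exp (t * I) - r * exp (φ * I)‖ ≤ 2 * (1 - r) := by
      have e : exp (t * I) - r * exp (φ * I) = (exp (t * I) - exp (φ * I)) +
          ((1 - r : ℝ) : ℂ) * exp (φ * I) := by push_cast; ring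
      rw [e]
      refine (norm_add_le _ _).trans ?_
      rw [norm_mul, norm_exp_ofReal_mul_I, norm_real, Real.norm_eq_abs, abs_of_pos hr, mul_one]
      have h6 := norm_exp_sub t φ
      have h7 : |t - φ| ≤ 1 - r := by
        rw [abs_le]; constructor <;> linarith [ht.1, ht.2]
      linarith
    have h8 : 0 < ‖exp (t * I) - r * exp (φ * I)‖ := norm_pos_iff.2 (ne0 t hz)
    rw [div_le_div_iff₀ (by positivity) (by positivity)]
    have h9 : ‖exp (t * I) - r * exp (φ * I)‖ ^ 2 ≤ (2 * (1 - r)) ^ 2 := by gcongr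
    nlinarith
  have h10 : ∫ t in Ioo a b, pk t (r * exp (φ * I)) ≤ ∫ t in S, pk t (r * exp (φ * I)) := by
    refine setIntegral_mono_set (int_pk hS' hz) ?_ ?_
    · filter_upwards with t using pk_nonneg t hz
    · exact LE.le.eventuallyLE h1
  rw [integral_const, smul_eq_mul, measureReal_restrict_apply_univ, Real.volume_real_Ioo_of_le hab] at h4
  calc (b - a) / (8 * Real.pi * (1 - r)) = 1 / (2 * Real.pi) * ((b - a) * (1 / (4 * (1 - r)))) := by
        field_simp; ring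
    _ ≤ 1 / (2 * Real.pi) * ∫ t in S, pk t (r * exp (φ * I)) := by
        have := h4.trans h10
        gcongr


/-- complement of the arc -/
def Cc (l : ℝ) : Set ℝ := Ioo (-Real.pi) (-l) ∪ Ioo l Real.pi

lemma vol_Cc (l : ℝ) : volume (Cc l) ≠ ⊤ := by
  refine (lt_of_le_of_lt (measure_union_le _ _) ?_).ne
  rw [Real.volume_Ioo, Real.volume_Ioo]
  exact ENNReal.add_lt_top.2 ⟨ENNReal.ofReal_lt_top, ENNReal.ofReal_lt_top⟩

/-- if the harmonic measure of the complement of the arc is small then we are well inside -/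
lemma inside {l : ℝ} (hlp : l < Real.pi) {r φ : ℝ} (hr0 : 0 ≤ r) (hr1 : r < 1)
    (hφ : |φ| ≤ Real.pi)
    (hv : vS (Cc l) (r * exp (φ * I)) < min (Real.pi - l) (1 / 2) / (8 * Real.pi)) :
    |φ| + (1 - r) / 2 < l := by
  by_contra hc
  push Not at hc
  have hr : 0 < 1 - r := by linarith
  have hpi := Real.pi_pos
  have hm : (1 - r) * min (Real.pi - l) (1 / 2) ≤ min (Real.pi - l) ((1 - r) / 2) := by
    refine le_min ?_ ?_
    · have h1 := min_le_left (Real.pi - l) (1 / 2 : ℝ)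
      have h2 : 0 ≤ min (Real.pi - l) (1 / 2 : ℝ) := le_min (by linarith) (by norm_num)
      nlinarith
    · have h1 := min_le_right (Real.pi - l) (1 / 2 : ℝ)
      nlinarith
  have key : ∀ a b : ℝ, a ≤ b → Ioo a b ⊆ Cc l → φ - (1 - r) ≤ a → b ≤ φ + (1 - r) →
      min (Real.pi - l) ((1 - r) / 2) ≤ b - a → False := by
    intro a b hab h1 h2 h3 h4
    have h5 := vS_ge (vol_Cc l) hr0 hr1 hab h1 h2 h3
    have h6 : min (Real.pi - l) (1 / 2) / (8 * Real.pi) ≤ (b - a) / (8 * Real.pi * (1 - r)) := by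
      rw [div_le_div_iff₀ (by positivity) (by positivity)]
      have h7 : (1 - r) * min (Real.pi - l) (1 / 2) ≤ b - a := hm.trans h4
      nlinarith [mul_le_mul_of_nonneg_left h7 (by positivity : (0 : ℝ) ≤ 8 * Real.pi)]
    linarith
  rcases le_total 0 φ with h | h
  · rw [abs_of_nonneg h] at hc hφ
    have hle : max l (φ - (1 - r)) ≤ min Real.pi (φ + (1 - r)) :=
      max_le (le_min hlp.le (by linarith)) (le_min (by linarith) (by linarith))
    refine key (max l (φ - (1 - r))) (min Real.pi (φ + (1 - r))) hle ?_ (le_max_right _ _)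
      (min_le_right _ _) ?_
    · intro x hx
      exact Or.inr ⟨(le_max_left _ _).trans_lt hx.1, hx.2.trans_le (min_le_left _ _)⟩
    · rcases max_choice l (φ - (1 - r)) with h1 | h1 <;>
        rcases min_choice Real.pi (φ + (1 - r)) with h2 | h2 <;> rw [h1, h2]
      · exact min_le_left _ _
      · exact (min_le_right _ _).trans (by linarith)
      · exact (min_le_right _ _).trans (by linarith)
      · exact (min_le_right _ _).trans (by linarith)
  · rw [abs_of_nonpos h] at hc hφ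
    have hle : max (-Real.pi) (φ - (1 - r)) ≤ min (-l) (φ + (1 - r)) :=
      max_le (le_min (by linarith) (by linarith)) (le_min (by linarith) (by linarith))
    refine key (max (-Real.pi) (φ - (1 - r))) (min (-l) (φ + (1 - r))) hle ?_ (le_max_right _ _)
      (min_le_right _ _) ?_
    · intro x hx
      exact Or.inl ⟨(le_max_left _ _).trans_lt hx.1, hx.2.trans_le (min_le_left _ _)⟩
    · rcases max_choice (-Real.pi) (φ - (1 - r)) with h1 | h1 <;>
        rcases min_choice (-l) (φ + (1 - r)) with h2 | h2 <;> rw [h1, h2]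
      · exact (min_le_left _ _).trans (by linarith)
      · exact (min_le_right _ _).trans (by linarith)
      · exact (min_le_right _ _).trans (by linarith)
      · exact (min_le_right _ _).trans (by linarith)

/-- a good radius nearby -/
lemma goodpt {l : ℝ} {B : Set ℝ} (hB : volume B ≠ ⊤) {r φ δ : ℝ} (hr0 : 0 ≤ r)
    (hr1 : r < 1) (hin : |φ| + (1 - r) / 2 < l) (hδ0 : 0 < δ) (hδ : δ ≤ 1 / 2)
    (hv : vS B (r * exp (φ * I)) < δ / (4 * Real.pi)) :
    ∃ θ, θ ∈ Ioo (-l) l ∧ θ ∉ B ∧ |θ - φ| ≤ δ * (1 - r) := by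
  by_contra hc
  push Not at hc
  have hr : 0 < 1 - r := by linarith
  have hpi := Real.pi_pos
  have hδr : δ * (1 - r) ≤ (1 - r) / 2 := by nlinarith
  have hδr0 : 0 < δ * (1 - r) := by positivity
  obtain ⟨h1, h2⟩ := abs_lt.1 (show |φ| < l - (1 - r) / 2 by linarith)
  have h3 := vS_ge hB hr0 hr1 (a := φ - δ * (1 - r)) (b := φ + δ * (1 - r)) (φ := φ) (by linarith) (by
      intro x hx
      by_contra hxB
      have h4 := hc x ⟨by linarith [hx.1], by linarith [hx.2]⟩ hxB
      have h5 : |x - φ| ≤ δ * (1 - r) := by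
        rw [abs_le]; constructor <;> linarith [hx.1, hx.2]
      linarith) (by linarith) (by linarith)
  have h6 : (φ + δ * (1 - r) - (φ - δ * (1 - r))) / (8 * Real.pi * (1 - r)) = δ / (4 * Real.pi) := by
    field_simp; ring
  rw [h6] at h3
  linarith

/-- there are interior points where the harmonic measure of the complement is small -/
lemma exists_small {l : ℝ} (hl0 : 0 < l) (hlp : l < Real.pi) {η : ℝ} (hη : 0 < η) :
    ∃ r : ℝ, 0 < r ∧ r < 1 ∧ vS (Cc l) r < η := by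
  have hpi := Real.pi_pos
  have hcos : Real.cos l < 1 := by
    have := Real.cos_lt_cos_of_nonneg_of_le_pi le_rfl hlp.le hl0
    rwa [Real.cos_zero] at this
  set k := 1 - Real.cos l with hk
  have hk0 : 0 < k := by linarith
  -- pointwise bound
  have hpt : ∀ r : ℝ, 1 / 2 ≤ r → r < 1 → ∀ t ∈ Cc l, pk t r ≤ 2 * (1 - r) / k := by
    intro r hr hr1 t ht
    have hcost : Real.cos t ≤ Real.cos l := by
      rcases ht with ht | ht
      · rw [← Real.cos_neg t]
        exact Real.cos_le_cos_of_nonneg_of_le_pi hl0.le (by linarith [ht.1]) (by linarith [ht.2])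
      · exact Real.cos_le_cos_of_nonneg_of_le_pi hl0.le (by linarith [ht.2]) (by linarith [ht.1])
    have hsq : ‖exp (t * I) - (r : ℂ)‖ ^ 2 = 1 - 2 * r * Real.cos t + r ^ 2 := by
      rw [← normSq_eq_norm_sq, normSq_apply, sub_re, sub_im, exp_ofReal_mul_I_re,
        exp_ofReal_mul_I_im, ofReal_re, ofReal_im]
      have := Real.sin_sq_add_cos_sq t
      nlinarith
    unfold pk
    rw [hsq, norm_real, Real.norm_eq_abs, abs_of_pos (by linarith)]
    have h1 : k ≤ 1 - 2 * r * Real.cos t + r ^ 2 := by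
      have h2 : 2 * r * Real.cos t ≤ 2 * r * Real.cos l := by
        apply mul_le_mul_of_nonneg_left hcost; linarith
      have h3 : 2 * r * Real.cos l = 2 * r - 2 * r * k := by rw [hk]; ring
      nlinarith [sq_nonneg (1 - r)]
    rw [div_le_div_iff₀ (by linarith) hk0]
    have h4 : 1 - r ^ 2 ≤ 2 * (1 - r) := by nlinarith
    have h5 : 0 ≤ 2 * (1 - r) := by linarith
    calc (1 - r ^ 2) * k ≤ (2 * (1 - r)) * k := by gcongr
      _ ≤ 2 * (1 - r) * (1 - 2 * r * Real.cos t + r ^ 2) := by gcongr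
  have hvol : (volume (Cc l)).toReal ≤ 2 * Real.pi := by
    have h1 : volume (Cc l) ≤ ENNReal.ofReal (2 * Real.pi) := by
      refine (measure_mono (t := Ioo (-Real.pi) Real.pi) ?_).trans ?_
      · intro x hx
        rcases hx with hx | hx
        · exact ⟨hx.1, by linarith [hx.2]⟩
        · exact ⟨by linarith [hx.1], hx.2⟩
      · rw [Real.volume_Ioo]
        apply ENNReal.ofReal_le_ofReal
        linarith
    exact ENNReal.toReal_le_of_le_ofReal (by positivity) h1
  have hv : ∀ r : ℝ, 1 / 2 ≤ r → r < 1 → vS (Cc l) r ≤ 2 * (1 - r) / k := by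
    intro r hr hr1
    have hz : (r : ℂ) ∈ ball (0 : ℂ) 1 := by
      rw [mem_ball, dist_zero_right, norm_real, Real.norm_eq_abs, abs_of_pos (by linarith)]
      exact hr1
    have hmeas : MeasurableSet (Cc l) := measurableSet_Ioo.union measurableSet_Ioo
    unfold vS
    have h1 : ∫ t in Cc l, pk t r ≤ ∫ t in Cc l, 2 * (1 - r) / k :=
      setIntegral_mono_on (int_pk (vol_Cc l) hz) (integrableOn_const (vol_Cc l)) hmeas
        (hpt r hr hr1)
    rw [integral_const, smul_eq_mul, measureReal_restrict_apply_univ, measureReal_def] at h1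
    have h0 : 0 ≤ 2 * (1 - r) / k := div_nonneg (by linarith) hk0.le
    calc 1 / (2 * Real.pi) * ∫ t in Cc l, pk t r
        ≤ 1 / (2 * Real.pi) * ((volume (Cc l)).toReal * (2 * (1 - r) / k)) := by gcongr
      _ ≤ 1 / (2 * Real.pi) * ((2 * Real.pi) * (2 * (1 - r) / k)) := by gcongr
      _ = 2 * (1 - r) / k := by field_simp
  obtain ⟨s, hs⟩ : ∃ s, s = min (1 / 4) (η * k / 4) := ⟨_, rfl⟩
  have hs0 : 0 < s := by rw [hs]; positivity
  have hs1 : s ≤ 1 / 4 := by rw [hs]; exact min_le_left _ _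
  have hs2 : s ≤ η * k / 4 := by rw [hs]; exact min_le_right _ _
  refine ⟨1 - s, by linarith, by linarith, ?_⟩
  refine (hv (1 - s) (by linarith) (by linarith)).trans_lt ?_
  rw [div_lt_iff₀ hk0]
  have : 0 < η * k := by positivity
  linarith

/-- the set of bad angles -/
def Bad (F : ℂ → ℂ) (c : ℂ) (l ε ρ : ℝ) : Set ℝ :=
  {θ | θ ∈ Ioo (-l) l ∧ ∃ r ∈ Ioo ρ 1, ε < ‖F (r * exp (θ * I)) - c‖}

lemma bad_open {F : ℂ → ℂ} (hF : ContinuousOn F (ball 0 1)) (c : ℂ) (l ε : ℝ) {ρ : ℝ} (hρ : 0 ≤ ρ) :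
    IsOpen (Bad F c l ε ρ) := by
  have : Bad F c l ε ρ = Ioo (-l) l ∩ ⋃ r ∈ Ioo ρ 1, {θ : ℝ | ε < ‖F (r * exp (θ * I)) - c‖} := by
    ext θ; simp [Bad]
  rw [this]
  refine isOpen_Ioo.inter (isOpen_biUnion fun r hr => ?_)
  refine isOpen_lt continuous_const ?_
  refine ((hF.comp_continuous (by fun_prop) (fun θ => ?_)).sub continuous_const).norm
  rw [mem_ball, dist_zero_right, norm_mul, norm_exp_ofReal_mul_I, norm_real, Real.norm_eq_abs,
    abs_of_pos (by linarith [hr.1]), mul_one]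
  exact hr.2

lemma bad_small {F : ℂ → ℂ} (hF : ContinuousOn F (ball 0 1)) {c : ℂ} {l : ℝ}
    (hrad : ∀ᵐ θ : ℝ ∂(volume.restrict (Ioo (-l) l)),
      Tendsto (fun r : ℝ => F (r * exp (θ * I))) (𝓝[<] 1) (𝓝 c))
    {ε η : ℝ} (hε : 0 < ε) (hη : 0 < η) :
    ∃ ρ : ℝ, 0 < ρ ∧ ρ < 1 ∧ (volume (Bad F c l ε ρ)).toReal < η := by
  let ρ : ℕ → ℝ := fun k => 1 - 1 / ((k : ℝ) + 2)
  have hρ0 : ∀ k, 0 < ρ k := by
    intro k
    have : (1 : ℝ) / ((k : ℝ) + 2) < 1 := by
      rw [div_lt_one (by positivity)]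
      have : (0 : ℝ) ≤ k := Nat.cast_nonneg k
      linarith
    simp only [ρ]; linarith
  have hρ1 : ∀ k, ρ k < 1 := by
    intro k
    have : (0 : ℝ) < 1 / ((k : ℝ) + 2) := by positivity
    simp only [ρ]; linarith
  have hρm : Monotone ρ := by
    intro a b hab
    simp only [ρ]
    have : (a : ℝ) ≤ b := by exact_mod_cast hab
    have : (1 : ℝ) / ((b : ℝ) + 2) ≤ 1 / ((a : ℝ) + 2) := by gcongr
    linarith
  have hρt : Tendsto ρ atTop (𝓝 1) := by
    have h1 : Tendsto (fun k : ℕ => (1 : ℝ) / ((k : ℝ) + 2)) atTop (𝓝 0) := by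
      have := (tendsto_const_div_atTop_nhds_zero_nat (1 : ℝ)).comp (tendsto_add_atTop_nat 2)
      refine this.congr (fun k => ?_)
      simp
    have h2 := h1.const_sub 1
    simpa [ρ] using h2
  have hanti : Antitone (fun k => Bad F c l ε (ρ k)) := by
    intro a b hab θ hθ
    obtain ⟨h1, r, hr, h2⟩ := hθ
    exact ⟨h1, r, ⟨(hρm hab).trans_lt hr.1, hr.2⟩, h2⟩
  have hmeas : ∀ k, MeasurableSet (Bad F c l ε (ρ k)) := fun k =>
    (bad_open hF c l ε (hρ0 k).le).measurableSet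
  have hfin : ∀ k, volume (Bad F c l ε (ρ k)) ≠ ⊤ := by
    intro k
    have hsub : Bad F c l ε (ρ k) ⊆ Ioo (-l) l := fun θ hθ => hθ.1
    have h1 : volume (Bad F c l ε (ρ k)) ≤ volume (Ioo (-l) l) := measure_mono hsub
    rw [Real.volume_Ioo] at h1
    exact (h1.trans_lt ENNReal.ofReal_lt_top).ne
  have hlim := tendsto_measure_iInter_atTop (μ := volume) (fun k => (hmeas k).nullMeasurableSet)
    hanti ⟨0, hfin 0⟩
  have hzero : volume (⋂ k, Bad F c l ε (ρ k)) = 0 := by
    rw [ae_restrict_iff' measurableSet_Ioo] at hrad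
    refine measure_mono_null ?_ (ae_iff.1 hrad)
    intro θ hθ
    rw [mem_iInter] at hθ
    simp only [mem_ofPred_eq]
    intro hc
    have h1 := hc (hθ 0).1
    have h2 : ∀ᶠ r : ℝ in 𝓝[<] (1 : ℝ), ‖F (r * exp (θ * I)) - c‖ < ε := by
      have := h1.sub_const c
      rw [sub_self] at this
      have h3 := this.norm
      rw [norm_zero] at h3
      exact h3.eventually_lt_const hε
    rw [eventually_nhdsWithin_iff, Metric.eventually_nhds_iff] at h2
    obtain ⟨s, hs, h2⟩ := h2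
    have h3 : ∀ᶠ k in atTop, 1 - s < ρ k := hρt.eventually_const_lt (by linarith)
    obtain ⟨k, hk⟩ := h3.exists
    obtain ⟨_, r, hr, h4⟩ := hθ k
    have h5 := h2 (y := r) (by
      rw [Real.dist_eq, abs_sub_comm, abs_of_pos (by linarith [hr.2])]
      linarith [hr.1]) hr.2
    linarith
  rw [hzero] at hlim
  have hlim2 : Tendsto (fun k => (volume (Bad F c l ε (ρ k))).toReal) atTop (𝓝 0) := by
    have := (ENNReal.tendsto_toReal ENNReal.zero_ne_top).comp hlim
    rw [ENNReal.toReal_zero] at this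
    exact this
  obtain ⟨k, hk⟩ := (hlim2.eventually_lt_const hη).exists
  exact ⟨ρ k, hρ0 k, hρ1 k, hk⟩


lemma close {g : ℂ → ℂ} {C : ℝ} (hg : ∀ z ∈ ball (0 : ℂ) 1, DifferentiableAt ℂ g z)
    (hgb : ∀ z ∈ ball (0 : ℂ) 1, (1 - ‖z‖) * ‖deriv g z‖ ≤ C) {r θ φ δ : ℝ} (hr0 : 0 ≤ r)
    (hr1 : r < 1) (hC : 0 ≤ C) (h : |θ - φ| ≤ δ * (1 - r)) :
    ‖g (r * exp (φ * I)) - g (r * exp (θ * I))‖ ≤ C * δ := by
  have hr : 0 < 1 - r := by linarith
  have hn : ∀ t : ℝ, ‖(r : ℂ) * exp (t * I)‖ = r := fun t => by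
    rw [norm_mul, norm_exp_ofReal_mul_I, norm_real, Real.norm_eq_abs, abs_of_nonneg hr0, mul_one]
  have hmem : ∀ t : ℝ, (r : ℂ) * exp (t * I) ∈ closedBall (0 : ℂ) r := fun t => by
    rw [mem_closedBall, dist_zero_right, hn]
  have hsub : closedBall (0 : ℂ) r ⊆ ball 0 1 := closedBall_subset_ball hr1
  have h1 : ‖g (r * exp (φ * I)) - g (r * exp (θ * I))‖ ≤
      C / (1 - r) * ‖(r : ℂ) * exp (φ * I) - r * exp (θ * I)‖ := by
    refine (convex_closedBall (0 : ℂ) r).norm_image_sub_le_of_norm_deriv_le (𝕜 := ℂ)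
      (fun y hy => hg y (hsub hy)) ?_ (hmem θ) (hmem φ)
    intro y hy
    have h2 := hgb y (hsub hy)
    rw [mem_closedBall, dist_zero_right] at hy
    rw [le_div_iff₀ hr]
    have h3 : ‖deriv g y‖ * (1 - r) ≤ ‖deriv g y‖ * (1 - ‖y‖) :=
      mul_le_mul_of_nonneg_left (by linarith) (norm_nonneg _)
    linarith
  have h2 : ‖(r : ℂ) * exp (φ * I) - r * exp (θ * I)‖ ≤ δ * (1 - r) := by
    rw [← mul_sub, norm_mul, norm_real, Real.norm_eq_abs, abs_of_nonneg hr0]
    have h3 := norm_exp_sub φ θ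
    rw [abs_sub_comm] at h3
    have h4 := norm_nonneg (exp (φ * I) - exp (θ * I))
    nlinarith [abs_nonneg (θ - φ)]
  calc _ ≤ C / (1 - r) * ‖(r : ℂ) * exp (φ * I) - r * exp (θ * I)‖ := h1
    _ ≤ C / (1 - r) * (δ * (1 - r)) := by
        have : 0 ≤ C / (1 - r) := div_nonneg hC hr.le
        gcongr
    _ = C * δ := by field_simp

lemma near {F g : ℂ → ℂ} {C : ℝ} (hg : ∀ z ∈ ball (0 : ℂ) 1, DifferentiableAt ℂ g z)
    (hgb : ∀ z ∈ ball (0 : ℂ) 1, (1 - ‖z‖) * ‖deriv g z‖ ≤ C) (hC : 0 ≤ C)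
    {l : ℝ} (hlp : l < Real.pi) {c : ℂ} {ε ρ δ : ℝ}
    (hδ0 : 0 < δ) (hδ : δ ≤ 1 / 2) {z : ℂ} (hz : z ∈ ball (0 : ℂ) 1) (hρz : ρ < ‖z‖)
    (hv1 : vS (Cc l) z < min (Real.pi - l) (1 / 2) / (8 * Real.pi))
    (hv2 : vS (Bad F c l ε ρ) z < δ / (4 * Real.pi)) :
    ∃ w ∈ ball (0 : ℂ) 1, ‖F w - c‖ ≤ ε ∧ ‖g z - g w‖ ≤ C * δ := by
  have hz1 : ‖z‖ < 1 := by simpa using hz
  have hfin : volume (Bad F c l ε ρ) ≠ ⊤ := by
    have hsub : Bad F c l ε ρ ⊆ Ioo (-l) l := fun θ hθ => hθ.1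
    have h1 : volume (Bad F c l ε ρ) ≤ volume (Ioo (-l) l) := measure_mono hsub
    rw [Real.volume_Ioo] at h1
    exact (h1.trans_lt ENNReal.ofReal_lt_top).ne
  have e := norm_mul_exp_arg_mul_I z
  have h1 := inside hlp (norm_nonneg z) hz1 (abs_arg_le_pi z) (by rw [e]; exact hv1)
  obtain ⟨θ, hθ1, hθ2, hθ3⟩ := goodpt hfin (norm_nonneg z) hz1 h1 hδ0 hδ (by rw [e]; exact hv2)
  have hn : ‖(‖z‖ : ℂ) * exp (θ * I)‖ = ‖z‖ := by
    rw [norm_mul, norm_exp_ofReal_mul_I, norm_real, Real.norm_eq_abs, abs_of_nonneg (norm_nonneg z),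
      mul_one]
  refine ⟨(‖z‖ : ℂ) * exp (θ * I), ?_, ?_, ?_⟩
  · rw [mem_ball, dist_zero_right, hn]; exact hz1
  · by_contra hc
    push Not at hc
    exact hθ2 ⟨hθ1, ‖z‖, ⟨hρz, hz1⟩, hc⟩
  · have h2 := close hg hgb (norm_nonneg z) hz1 hC hθ3
    rwa [e] at h2

lemma cmp1 {F g : ℂ → ℂ} (hexp : ∀ z ∈ ball (0 : ℂ) 1, exp (g z) = F z) {c z w : ℂ} {ε s : ℝ}
    (hz : z ∈ ball (0 : ℂ) 1) (hw : w ∈ ball (0 : ℂ) 1) (h1 : ‖F w - c‖ ≤ ε) (h2 : ‖g z - g w‖ ≤ s) :
    ‖F z - c‖ ≤ (‖c‖ + ε) * Real.exp s + ‖c‖ := by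
  have h3 : ‖F w‖ ≤ ‖c‖ + ε := by
    have := norm_add_le (F w - c) c
    rw [sub_add_cancel] at this
    linarith
  have h4 : ‖F z‖ ≤ ‖F w‖ * Real.exp s := by
    rw [← hexp z hz, ← hexp w hw, norm_exp, norm_exp, ← Real.exp_add]
    apply Real.exp_le_exp.2
    have h5 := (abs_re_le_norm (g z - g w)).trans h2
    rw [sub_re] at h5
    have := le_abs_self ((g z).re - (g w).re)
    linarith
  have h5 := norm_sub_le (F z) c
  have h6 : ‖F w‖ * Real.exp s ≤ (‖c‖ + ε) * Real.exp s := by gcongr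
  linarith

lemma cmp2 {F g : ℂ → ℂ} (hexp : ∀ z ∈ ball (0 : ℂ) 1, exp (g z) = F z) {c z w : ℂ} {ε s : ℝ}
    (hz : z ∈ ball (0 : ℂ) 1) (hw : w ∈ ball (0 : ℂ) 1) (h1 : ‖F w - c‖ ≤ ε) (h2 : ‖g z - g w‖ ≤ s)
    (hs : s ≤ 1) : ‖F z - c‖ ≤ (‖c‖ + ε) * (2 * s) + ε := by
  have h3 : ‖F w‖ ≤ ‖c‖ + ε := by
    have := norm_add_le (F w - c) c
    rw [sub_add_cancel] at this
    linarith
  have h4 : ‖F z - F w‖ ≤ ‖F w‖ * (2 * s) := by
    have e : F z - F w = F w * (exp (g z - g w) - 1) := by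
      rw [← hexp z hz, ← hexp w hw, mul_sub, mul_one, ← exp_add]
      congr 2; ring
    rw [e, norm_mul]
    have h5 := norm_exp_sub_one_le (h2.trans hs)
    gcongr
    linarith
  have hs0 : 0 ≤ s := (norm_nonneg _).trans h2
  have h6 : ‖F w‖ * (2 * s) ≤ (‖c‖ + ε) * (2 * s) := by gcongr
  have h7 := norm_sub_le_norm_sub_add_norm_sub (F z) (F w) c
  linarith

/-- Uniqueness on an arc. -/
theorem arc_unique {F g : ℂ → ℂ} {C : ℝ} (hC : 0 ≤ C) (hF : DifferentiableOn ℂ F (ball 0 1))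
    (hg : ∀ z ∈ ball (0 : ℂ) 1, DifferentiableAt ℂ g z)
    (hexp : ∀ z ∈ ball (0 : ℂ) 1, exp (g z) = F z)
    (hgb : ∀ z ∈ ball (0 : ℂ) 1, (1 - ‖z‖) * ‖deriv g z‖ ≤ C)
    {l : ℝ} (hl0 : 0 < l) (hlp : l < Real.pi) {c : ℂ}
    (hrad : ∀ᵐ θ : ℝ ∂(volume.restrict (Ioo (-l) l)),
      Tendsto (fun r : ℝ => F (r * exp (θ * I))) (𝓝[<] 1) (𝓝 c)) :
    ∀ z ∈ ball (0 : ℂ) 1, F z = c := by
  have hpi := Real.pi_pos
  have hFc := hF.continuousOn
  obtain ⟨m, hm⟩ : ∃ m, m = min (Real.pi - l) (1 / 2 : ℝ) := ⟨_, rfl⟩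
  have hm0 : 0 < m := by rw [hm]; exact lt_min (by linarith) (by norm_num)
  have hm1 : m ≤ 1 / 2 := by rw [hm]; exact min_le_right _ _
  obtain ⟨c1, hc1⟩ : ∃ c1, c1 = m / (16 * Real.pi) := ⟨_, rfl⟩
  have hc10 : 0 < c1 := by rw [hc1]; positivity
  have hc1a : c1 < m / (8 * Real.pi) := by
    rw [hc1, div_lt_div_iff₀ (by positivity) (by positivity)]
    nlinarith [mul_pos hm0 hpi]
  have hc1b : c1 ≤ 1 / (32 * Real.pi) := by
    rw [hc1, div_le_div_iff₀ (by positivity) (by positivity)]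
    nlinarith
  -- base point
  obtain ⟨r0, hr00, hr01, hr0v⟩ := exists_small hl0 hlp (η := c1 / 4) (by positivity)
  have hr0b : (r0 : ℂ) ∈ ball (0 : ℂ) 1 := by
    rw [mem_ball, dist_zero_right, norm_real, Real.norm_eq_abs, abs_of_pos hr00]; exact hr01
  have hr0n : ‖(r0 : ℂ)‖ = r0 := by rw [norm_real, Real.norm_eq_abs, abs_of_pos hr00]
  obtain ⟨ρ0, hρ00, hρ01, hρ0v⟩ := bad_small hFc hrad (ε := 1) (η := c1 / 4 * (Real.pi * (1 - r0)))
    one_pos (by have : 0 < 1 - r0 := by linarith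
                positivity)
  have hfin : ∀ ε ρ, volume (Bad F c l ε ρ) ≠ ⊤ := by
    intro ε ρ
    have hsub : Bad F c l ε ρ ⊆ Ioo (-l) l := fun θ hθ => hθ.1
    have h1 : volume (Bad F c l ε ρ) ≤ volume (Ioo (-l) l) := measure_mono hsub
    rw [Real.volume_Ioo] at h1
    exact (h1.trans_lt ENNReal.ofReal_lt_top).ne
  set B0 := Bad F c l 1 ρ0 with hB0
  have hvB0 : vS B0 r0 < c1 / 4 := by
    refine (vS_le (hfin 1 ρ0) hr0b).trans_lt ?_
    rw [hr0n, div_lt_iff₀ (by have : 0 < 1 - r0 := by linarith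
                              positivity)]
    exact hρ0v
  -- base bound
  obtain ⟨M0, hM0⟩ := (isCompact_closedBall (0 : ℂ) ρ0).exists_bound_of_continuousOn
    ((hFc.mono (closedBall_subset_ball hρ01)).sub continuousOn_const) (f := fun z => F z - c)
  obtain ⟨M, hM⟩ : ∃ M, M = max M0 ((‖c‖ + 1) * Real.exp (C * (1 / 2)) + ‖c‖) + 1 := ⟨_, rfl⟩
  have hMa : M0 ≤ M := by rw [hM]; linarith [le_max_left M0 ((‖c‖ + 1) * Real.exp (C * (1 / 2)) + ‖c‖)]
  have hMb : (‖c‖ + 1) * Real.exp (C * (1 / 2)) + ‖c‖ ≤ M := by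
    rw [hM]; linarith [le_max_right M0 ((‖c‖ + 1) * Real.exp (C * (1 / 2)) + ‖c‖)]
  have hMpos : 0 < M := by
    have : 0 < (‖c‖ + 1) * Real.exp (C * (1 / 2)) + ‖c‖ := by positivity
    linarith
  have hbase : ∀ z ∈ ball (0 : ℂ) 1, vS (Cc l) z ≤ c1 → vS B0 z ≤ c1 → ‖F z - c‖ ≤ M := by
    intro z hz h1 h2
    rcases le_or_gt ‖z‖ ρ0 with h3 | h3
    · exact (hM0 z (by rw [mem_closedBall, dist_zero_right]; exact h3)).trans hMa
    · obtain ⟨w, hw, hw1, hw2⟩ := near hg hgb hC hlp (c := c) (ε := 1) (ρ := ρ0) (δ := 1 / 2)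
        (by norm_num) le_rfl hz h3 (by rw [← hm]; linarith) (by
          refine lt_of_le_of_lt (h2.trans hc1b) ?_
          rw [div_lt_div_iff₀ (by positivity) (by positivity)]
          nlinarith)
      exact (cmp1 hexp hz hw hw1 hw2).trans hMb
  -- the main estimate at a point
  have hmain : ∀ z0 ∈ ball (0 : ℂ) 1, vS (Cc l) z0 + vS B0 z0 < c1 / 2 → F z0 = c := by
    intro z0 hz0 hz0v
    have hz01 : ‖z0‖ < 1 := by simpa using hz0
    by_contra hne
    have hx : 0 < ‖F z0 - c‖ := norm_pos_iff.2 (sub_ne_zero.2 hne)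
    obtain ⟨A, hA⟩ : ∃ A, A = 4 * (M / ‖F z0 - c‖) := ⟨_, rfl⟩
    have hA0 : 0 < A := by rw [hA]; positivity
    obtain ⟨κ, hκ⟩ : ∃ κ, κ = M * Real.exp (-A) := ⟨_, rfl⟩
    have hκ0 : 0 < κ := by rw [hκ]; positivity
    obtain ⟨ε, hε⟩ : ∃ ε, ε = min 1 (κ / 2) := ⟨_, rfl⟩
    have hε0 : 0 < ε := by rw [hε]; positivity
    have hε1 : ε ≤ 1 := by rw [hε]; exact min_le_left _ _
    have hε2 : ε ≤ κ / 2 := by rw [hε]; exact min_le_right _ _
    obtain ⟨δ, hδ⟩ : ∃ δ, δ = min (1 / 2) (min (1 / (C + 1)) (κ / (4 * (‖c‖ + 1) * (C + 1)))) :=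
      ⟨_, rfl⟩
    have hC1 : 0 < C + 1 := by linarith
    have hcn : 0 < ‖c‖ + 1 := by positivity
    have hδ0 : 0 < δ := by rw [hδ]; positivity
    have hδ1 : δ ≤ 1 / 2 := by rw [hδ]; exact min_le_left _ _
    have hδ2 : δ ≤ 1 / (C + 1) := by
      rw [hδ]; exact (min_le_right _ _).trans (min_le_left _ _)
    have hδ3 : δ ≤ κ / (4 * (‖c‖ + 1) * (C + 1)) := by
      rw [hδ]; exact (min_le_right _ _).trans (min_le_right _ _)
    have hCδ : C * δ ≤ 1 := by
      rw [le_div_iff₀ hC1] at hδ2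
      nlinarith
    have hCδ2 : (‖c‖ + 1) * (2 * (C * δ)) ≤ κ / 2 := by
      rw [le_div_iff₀ (by positivity)] at hδ3
      nlinarith [mul_pos hδ0 hcn]
    obtain ⟨ρ1, hρ10, hρ11, hρ1v⟩ := bad_small hFc hrad (ε := ε)
      (η := c1 / 4 * δ * (Real.pi * (1 - ‖z0‖))) hε0 (by
        have : 0 < 1 - ‖z0‖ := by linarith
        positivity)
    set B := Bad F c l ε ρ1 with hB
    have hvB : 1 / δ * vS B z0 ≤ c1 / 4 := by
      have h1 := vS_le (hfin ε ρ1) hz0
      have h2 : 0 < Real.pi * (1 - ‖z0‖) := by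
        have : 0 < 1 - ‖z0‖ := by linarith
        positivity
      have h3 : (volume B).toReal / (Real.pi * (1 - ‖z0‖)) ≤ c1 / 4 * δ := by
        rw [div_le_iff₀ h2]; exact hρ1v.le
      rw [div_mul_eq_mul_div, one_mul, div_le_iff₀ hδ0]
      exact h1.trans h3
    have hfine : ∀ z ∈ ball (0 : ℂ) 1, ρ1 < ‖z‖ → vS (Cc l) z ≤ c1 → 1 / δ * vS B z ≤ c1 →
        ‖F z - c‖ ≤ κ := by
      intro z hz h1 h2 h3
      rw [div_mul_eq_mul_div, one_mul, div_le_iff₀ hδ0] at h3
      obtain ⟨w, hw, hw1, hw2⟩ := near hg hgb hC hlp (c := c) (ε := ε) (ρ := ρ1) (δ := δ)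
        hδ0 hδ1 hz h1 (by rw [← hm]; linarith) (by
          refine lt_of_le_of_lt (h3.trans (mul_le_mul_of_nonneg_right hc1b hδ0.le)) ?_
          rw [div_mul_eq_mul_div, one_mul, div_lt_div_iff₀ (by positivity) (by positivity)]
          nlinarith [mul_pos hδ0 hpi])
      refine (cmp2 hexp hz hw hw1 hw2 hCδ).trans ?_
      have h4 : (‖c‖ + ε) * (2 * (C * δ)) ≤ (‖c‖ + 1) * (2 * (C * δ)) := by gcongr
      linarith
    -- the comparison function
    obtain ⟨H, hH⟩ : ∃ H : ℂ → ℂ, H = fun z => hS (Cc l) z + hS B0 z + ((1 / δ : ℝ) : ℂ) * hS B z :=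
      ⟨_, rfl⟩
    have hHd : ∀ z ∈ ball (0 : ℂ) 1, DifferentiableAt ℂ H z := by
      intro z hz
      rw [hH]
      exact ((hS_diff (vol_Cc l) hz).add (hS_diff (hfin 1 ρ0) hz)).add
        ((hS_diff (hfin ε ρ1) hz).const_mul _)
    have hHre : ∀ z ∈ ball (0 : ℂ) 1, (H z).re = vS (Cc l) z + vS B0 z + 1 / δ * vS B z := by
      intro z hz
      rw [hH]
      simp only [add_re, re_ofReal_mul]
      rw [hS_re (vol_Cc l) hz, hS_re (hfin 1 ρ0) hz, hS_re (hfin ε ρ1) hz]
    have hpos : ∀ z ∈ ball (0 : ℂ) 1, 0 ≤ vS (Cc l) z ∧ 0 ≤ vS B0 z ∧ 0 ≤ 1 / δ * vS B z := by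
      intro z hz
      refine ⟨vS_nonneg hz, vS_nonneg hz, mul_nonneg (by positivity) (vS_nonneg hz)⟩
    obtain ⟨r1, hr1⟩ : ∃ r1, r1 = (1 + max (max ρ0 ρ1) ‖z0‖) / 2 := ⟨_, rfl⟩
    have hmax1 : max (max ρ0 ρ1) ‖z0‖ < 1 := max_lt (max_lt hρ01 hρ11) hz01
    have hr11 : r1 < 1 := by rw [hr1]; linarith
    have hr1m : max (max ρ0 ρ1) ‖z0‖ < r1 := by rw [hr1]; linarith
    have hr1z : ‖z0‖ < r1 := (le_max_right _ _).trans_lt hr1m
    have hr1ρ : ρ1 < r1 := ((le_max_right _ _).trans (le_max_left _ _)).trans_lt hr1m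
    have hsubr : closedBall (0 : ℂ) r1 ⊆ ball 0 1 := closedBall_subset_ball hr11
    let W : Set ℂ := ball 0 r1 ∩ (fun z => (H z).re) ⁻¹' (Iio c1)
    have hcontH : ContinuousOn (fun z => (H z).re) (ball 0 1) := fun z hz =>
      (continuous_re.continuousAt.comp (hHd z hz).continuousAt).continuousWithinAt
    have hWo : IsOpen W :=
      (hcontH.mono (ball_subset_ball hr11.le)).isOpen_inter_preimage isOpen_ball isOpen_Iio
    have hWcl : closure W ⊆ closedBall (0 : ℂ) r1 ∩ (fun z => (H z).re) ⁻¹' (Iic c1) := by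
      refine closure_minimal ?_ ?_
      · rintro z ⟨h1, h2⟩
        have h2' : (H z).re < c1 := h2
        exact ⟨ball_subset_closedBall h1, (show (H z).re ≤ c1 from h2'.le)⟩
      · exact (hcontH.mono hsubr).preimage_isClosed_of_isClosed isClosed_closedBall isClosed_Iic
    obtain ⟨G, hG⟩ : ∃ G : ℂ → ℂ, G = fun z => (F z - c) * exp (A * (1 - H z / c1)) := ⟨_, rfl⟩
    have hGd : DifferentiableOn ℂ G (ball 0 1) := by
      intro z hz
      rw [hG]
      have h1 : DifferentiableAt ℂ F z := hF.differentiableAt (isOpen_ball.mem_nhds hz)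
      have h2 := hHd z hz
      refine DifferentiableAt.differentiableWithinAt ?_
      exact (h1.sub_const c).mul (((differentiableAt_const _).mul
        ((differentiableAt_const _).sub (h2.div_const _))).cexp)
    have hGn : ∀ z, ‖G z‖ = ‖F z - c‖ * Real.exp (A * (1 - (H z).re / c1)) := by
      intro z
      rw [hG]
      simp only [norm_mul, norm_exp]
      congr 2
      rw [re_ofReal_mul, sub_re, one_re, div_ofReal_re]
    have hGcl : DiffContOnCl ℂ G W := by
      apply DifferentiableOn.diffContOnCl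
      exact hGd.mono fun z hz => hsubr (hWcl hz).1
    have hfr : ∀ z ∈ frontier W, ‖G z‖ ≤ M := by
      intro z hz
      rw [hWo.frontier_eq] at hz
      obtain ⟨hzc, hzn⟩ := hz
      obtain ⟨hz1, hz2⟩ := hWcl hzc
      have hzb := hsubr hz1
      have hz2' : (H z).re ≤ c1 := hz2
      obtain ⟨p1, p2, p3⟩ := hpos z hzb
      have hre := hHre z hzb
      rw [hGn]
      rcases eq_or_lt_of_le hz2' with h | h
      · rw [h, div_self hc10.ne', sub_self, mul_zero, Real.exp_zero, mul_one]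
        exact hbase z hzb (by linarith) (by linarith)
      · have hzn' : ¬ (z ∈ ball (0 : ℂ) r1) := fun hc => hzn ⟨hc, h⟩
        rw [mem_ball, dist_zero_right, not_lt] at hzn'
        have h1 := hfine z hzb (by linarith) (by linarith) (by linarith)
        have h2 : Real.exp (A * (1 - (H z).re / c1)) ≤ Real.exp A := by
          apply Real.exp_le_exp.2
          have : 0 ≤ (H z).re / c1 := div_nonneg (by linarith) hc10.le
          nlinarith
        calc ‖F z - c‖ * Real.exp (A * (1 - (H z).re / c1)) ≤ κ * Real.exp A := by gcongr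
          _ = M := by rw [hκ, mul_assoc, ← Real.exp_add]; simp
    have hz0V : (H z0).re ≤ 3 * c1 / 4 := by
      rw [hHre z0 hz0]; linarith
    have hz0W : z0 ∈ W := by
      refine ⟨by rw [mem_ball, dist_zero_right]; exact hr1z, ?_⟩
      show (H z0).re < c1
      linarith
    have hWb : Bornology.IsBounded W := isBounded_ball.subset inter_subset_left
    have hfinal := norm_le_of_forall_mem_frontier_norm_le hWb hGcl hfr (subset_closure hz0W)
    rw [hGn] at hfinal
    have h1 : Real.exp (A / 4) ≤ Real.exp (A * (1 - (H z0).re / c1)) := by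
      apply Real.exp_le_exp.2
      have h2 : (H z0).re / c1 ≤ 3 / 4 := by
        rw [div_le_iff₀ hc10]; linarith
      nlinarith
    have h3 : A / 4 + 1 ≤ Real.exp (A / 4) := Real.add_one_le_exp _
    have h4 : ‖F z0 - c‖ * (A / 4 + 1) ≤ M :=
      (mul_le_mul_of_nonneg_left (h3.trans h1) hx.le).trans hfinal
    have h5 : ‖F z0 - c‖ * (A / 4 + 1) = M + ‖F z0 - c‖ := by
      rw [hA]; field_simp
    linarith
  -- identity theorem
  have hev : F =ᶠ[𝓝 (r0 : ℂ)] fun _ => c := by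
    have hcont : ContinuousAt (fun z => (hS (Cc l) z + hS B0 z).re) (r0 : ℂ) :=
      continuous_re.continuousAt.comp
        ((hS_diff (vol_Cc l) hr0b).add (hS_diff (hfin 1 ρ0) hr0b)).continuousAt
    have h1 : (hS (Cc l) (r0 : ℂ) + hS B0 (r0 : ℂ)).re < c1 / 2 := by
      rw [add_re, hS_re (vol_Cc l) hr0b, hS_re (hfin 1 ρ0) hr0b]
      linarith
    filter_upwards [hcont.eventually_lt_const h1, isOpen_ball.mem_nhds hr0b] with z hz hzb
    rw [add_re, hS_re (vol_Cc l) hzb, hS_re (hfin 1 ρ0) hzb] at hz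
    exact hmain z hzb hz
  have hFa : AnalyticOnNhd ℂ F (ball 0 1) := hF.analyticOnNhd isOpen_ball
  have hca : AnalyticOnNhd ℂ (fun _ => c) (ball (0 : ℂ) 1) := analyticOnNhd_const
  exact hFa.eqOn_of_preconnected_of_eventuallyEq hca (convex_ball (0 : ℂ) 1).isPreconnected hr0b hev


/-- The class of continuous maps of the closed disc that are univalent in the open disc. -/
def IsU (f : ℂ → ℂ) : Prop :=
  ContinuousOn f (closedBall 0 1) ∧ DifferentiableOn ℂ f (ball 0 1) ∧ InjOn f (ball 0 1)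

/-- `f'` has the radial limit `w` at the boundary point with argument `θ`. -/
def DerivRadialLimit (f : ℂ → ℂ) (θ : ℝ) (w : ℂ) : Prop :=
  Tendsto (fun r : ℝ => deriv f (r * exp (θ * I))) (𝓝[<] 1) (𝓝 w)

/-- A univalent function whose derivative has the radial limit `c` almost everywhere on an arc is
affine. -/
theorem arc_rigid {f : ℂ → ℂ} (hf : DifferentiableOn ℂ f (ball 0 1)) (hinj : InjOn f (ball 0 1))
    {α β : ℝ} {c : ℂ} (hαβ : α < β)
    (hrad : ∀ᵐ θ ∂(volume.restrict (Ioo α β)), DerivRadialLimit f θ c) :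
    ∀ z ∈ ball (0 : ℂ) 1, deriv f z = c := by
  obtain ⟨g, hg, hexp, hgb⟩ := exists_bloch hf hinj
  obtain ⟨γ, hγ⟩ : ∃ γ, γ = (α + β) / 2 := ⟨_, rfl⟩
  obtain ⟨l, hl⟩ : ∃ l, l = min ((β - α) / 2) 1 := ⟨_, rfl⟩
  have hl0 : 0 < l := by rw [hl]; exact lt_min (by linarith) one_pos
  have hl1 : l ≤ 1 := by rw [hl]; exact min_le_right _ _
  have hl2 : l ≤ (β - α) / 2 := by rw [hl]; exact min_le_left _ _
  have hlp : l < Real.pi := by linarith [Real.pi_gt_three]
  obtain ⟨a, ha⟩ : ∃ a : ℂ, a = exp (γ * I) := ⟨_, rfl⟩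
  have han : ‖a‖ = 1 := by rw [ha, norm_exp_ofReal_mul_I]
  have ha0 : a ≠ 0 := by rw [ha]; exact exp_ne_zero _
  have hmaps : ∀ z ∈ ball (0 : ℂ) 1, a * z ∈ ball (0 : ℂ) 1 := by
    intro z hz
    rw [mem_ball, dist_zero_right] at hz ⊢
    rwa [norm_mul, han, one_mul]
  have hda : ∀ z : ℂ, HasDerivAt (fun z : ℂ => a * z) a z := fun z => by
    have h := (hasDerivAt_id z).const_mul a
    rw [mul_one] at h
    exact h
  have hF : DifferentiableOn ℂ (fun z => deriv f (a * z)) (ball 0 1) :=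
    (hf.deriv isOpen_ball).comp (fun z _ => (hda z).differentiableAt.differentiableWithinAt) hmaps
  have hrad' : ∀ᵐ θ : ℝ ∂(volume.restrict (Ioo (-l) l)),
      Tendsto (fun r : ℝ => (fun z => deriv f (a * z)) (r * exp (θ * I))) (𝓝[<] 1) (𝓝 c) := by
    rw [ae_restrict_iff' measurableSet_Ioo] at hrad ⊢
    have h1 := (measurePreserving_add_right volume γ).quasiMeasurePreserving.ae hrad
    filter_upwards [h1] with θ hθ hθl
    have h2 : DerivRadialLimit f (θ + γ) c := by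
      apply hθ
      constructor
      · have := hθl.1
        rw [hγ]; linarith
      · have := hθl.2
        rw [hγ]; linarith
    unfold DerivRadialLimit at h2
    refine h2.congr (fun r => ?_)
    show deriv f (r * exp ((θ + γ : ℝ) * I)) = deriv f (a * (r * exp (θ * I)))
    congr 1
    rw [ha]
    have e : (((θ + γ : ℝ) : ℂ)) * I = γ * I + θ * I := by push_cast; ring
    rw [e, exp_add]
    ring
  have key := arc_unique (F := fun z => deriv f (a * z)) (g := fun z => g (a * z)) (C := 4104)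
    (by norm_num) hF
    (fun z hz => (hg _ (hmaps z hz)).comp z (hda z).differentiableAt)
    (fun z hz => hexp _ (hmaps z hz))
    (fun z hz => by
      have h1 : HasDerivAt (fun z => g (a * z)) (deriv g (a * z) * a) z :=
        HasDerivAt.comp z (hg _ (hmaps z hz)).hasDerivAt (hda z)
      rw [h1.deriv, norm_mul, han, mul_one]
      have h2 := hgb _ (hmaps z hz)
      rwa [norm_mul, han, one_mul] at h2) hl0 hlp hrad'
  intro z hz
  have hz' : a⁻¹ * z ∈ ball (0 : ℂ) 1 := by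
    rw [mem_ball, dist_zero_right] at hz ⊢
    rwa [norm_mul, norm_inv, han, inv_one, one_mul]
  have h1 := key (a⁻¹ * z) hz'
  rwa [mul_inv_cancel_left₀ ha0] at h1

/-- Q1 fails; moreover a univalent function whose derivative has a constant radial limit almost
everywhere on an arc has constant derivative. -/
theorem result :
    (¬ ∀ m : ℝ → ℂ, Measurable m → ∃ f : ℂ → ℂ, IsU f ∧
      ∀ᵐ θ ∂(volume.restrict (Ico 0 (2 * Real.pi))), DerivRadialLimit f θ (m θ)) ∧
    (∀ f : ℂ → ℂ, DifferentiableOn ℂ f (ball 0 1) → InjOn f (ball 0 1) →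
      ∀ (α β : ℝ) (c : ℂ), α < β →
        (∀ᵐ θ ∂(volume.restrict (Ioo α β)), DerivRadialLimit f θ c) →
        ∀ z ∈ ball (0 : ℂ) 1, deriv f z = c) := by
  refine ⟨?_, fun f hf hinj α β c hαβ hrad => arc_rigid hf hinj hαβ hrad⟩
  intro h
  have hpi := Real.pi_pos
  obtain ⟨f, ⟨_, hf, hinj⟩, hrad⟩ := h (fun θ => if θ < Real.pi then 1 else 2)
    (Measurable.ite measurableSet_Iio measurable_const measurable_const)
  have h0 : (0 : ℂ) ∈ ball (0 : ℂ) 1 := mem_ball_self one_pos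
  have h1 : deriv f 0 = 1 := by
    refine arc_rigid hf hinj (α := 0) (β := Real.pi) hpi ?_ 0 h0
    have h2 := ae_restrict_of_ae_restrict_of_subset
      (fun x (hx : x ∈ Ioo 0 Real.pi) => (⟨hx.1.le, by linarith [hx.2]⟩ : x ∈ Ico 0 (2 * Real.pi))) hrad
    filter_upwards [h2, ae_restrict_mem measurableSet_Ioo] with θ hθ hθ2
    rw [if_pos hθ2.2] at hθ
    exact hθ
  have h2 : deriv f 0 = 2 := by
    refine arc_rigid hf hinj (α := Real.pi) (β := 2 * Real.pi) (by linarith) ?_ 0 h0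
    have h2 := ae_restrict_of_ae_restrict_of_subset
      (fun x (hx : x ∈ Ioo Real.pi (2 * Real.pi)) =>
        (⟨by linarith [hx.1], hx.2⟩ : x ∈ Ico 0 (2 * Real.pi))) hrad
    filter_upwards [h2, ae_restrict_mem measurableSet_Ioo] with θ hθ hθ2
    rw [if_neg (not_lt.2 hθ2.1.le)] at hθ
    exact hθ
  rw [h1] at h2
  norm_num at h2

end Pool.Agent.Results.MP_5011cf_an.Disproof
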